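import Mathlib

/-!
# A non-bipartite graph whose fully active cop number exceeds its cop number

The graph `G` has 14 vertices: `x_1, y_1, x_2, y_2, x_3, y_3` (numbers 0 to 5),
`a_1, a_1', a_2, a_2', a_3, a_3'` (numbers 6 to 11) and `z, z'` (numbers 12, 13).
Its edges: `x_i y_i`; `x_i` and `y_i` are both adjacent to `a_i, a_i', z, z'`;
the six vertices `a_i, a_i'` induce an octahedron in which `a_i, a_i'` are the three
non-adjacent pairs.  Two cops win the passive game in two rounds, but two cops do not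
win the fully active game.
-/

set_option autoImplicit false

namespace Pool.Agent.Results.MP_bb83f1_co.ActiveExceedsPassive

/-! ## The games -/

/-- A move in the passive game: stay, or go to a neighbour. -/
def passiveStep {V : Type*} (G : SimpleGraph V) (u v : V) : Prop := u = v ∨ G.Adj u v

/-- A move in the fully active game: go to a neighbour. -/
def activeStep {V : Type*} (G : SimpleGraph V) (u v : V) : Prop := G.Adj u v

/-- The positions of the `k` cops after their `t`-th turn, if they start at `c0` and, having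
seen the positions `[r 0, …, r t]` of the robber, move to `σ [r 0, …, r t]`.  (The earlier
positions of the cops are determined by `c0`, `σ` and the positions of the robber, so this is
a strategy with full information.) -/
def copPos {V : Type*} {k : ℕ} (c0 : Fin k → V) (σ : List V → Fin k → V) (r : ℕ → V) :
    ℕ → Fin k → V
  | 0 => c0
  | t + 1 => σ ((List.range (t + 1)).map r)

/-- `k` cops have a winning strategy in the game in which all moves are along `step`: they
choose their starting vertices `c0` and a strategy `σ` such that, for all positions `r 0` and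
legal moves `r 0 → r 1 → …` of the robber, all moves of the cops are legal, and at some moment
some cop is on the vertex of the robber: either when the robber has just moved to `r t` (or
has just been placed, if `t = 0`), or after the next move of the cops. -/
def CopsWin {V : Type*} (step : V → V → Prop) (k : ℕ) : Prop :=
  ∃ (c0 : Fin k → V) (σ : List V → Fin k → V),
    ∀ r : ℕ → V, (∀ t, step (r t) (r (t + 1))) →
      (∀ t i, step (copPos c0 σ r t i) (copPos c0 σ r (t + 1) i)) ∧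
      ∃ t i, copPos c0 σ r t i = r t ∨ copPos c0 σ r (t + 1) i = r t

/-- The cop number `c(G)`. -/
noncomputable def copNumber {V : Type*} (G : SimpleGraph V) : ℕ :=
  sInf {k | CopsWin (passiveStep G) k}

/-- The fully active cop number `c_a(G)`. -/
noncomputable def activeCopNumber {V : Type*} (G : SimpleGraph V) : ℕ :=
  sInf {k | CopsWin (activeStep G) k}

/-! ## Robber strategies against one or two cops -/

section Robber

variable {V : Type*} (G : SimpleGraph V)

/-- position of one cop -/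
def pos1 (a0 : V) (A : List V → V) (r : ℕ → V) : ℕ → V
  | 0 => a0
  | t + 1 => A ((List.range (t + 1)).map r)

theorem robber_play (T : V → V → V → Prop) (hnb : ∀ v, ∃ w, G.Adj v w)
    (h0 : ∀ a b, ∃ r, T a b r)
    (hT : ∀ a b r, T a b r → r ≠ a ∧ r ≠ b ∧ ∀ a' b', G.Adj a a' → G.Adj b b' →
      r ≠ a' ∧ r ≠ b' ∧ ∃ r', G.Adj r r' ∧ T a' b' r')
    (a0 b0 : V) (A B : List V → V) :
    ∃ r : ℕ → V, (∀ t, G.Adj (r t) (r (t + 1))) ∧
      ((∀ t, G.Adj (pos1 a0 A r t) (pos1 a0 A r (t + 1))) →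
        (∀ t, G.Adj (pos1 b0 B r t) (pos1 b0 B r (t + 1))) →
        ∀ t, (pos1 a0 A r t ≠ r t ∧ pos1 a0 A r (t + 1) ≠ r t) ∧
          (pos1 b0 B r t ≠ r t ∧ pos1 b0 B r (t + 1) ≠ r t)) := by
  classical
  choose nb hnb using hnb
  obtain ⟨r0, hr0⟩ := h0 a0 b0
  -- the robber's reaction
  let ch : V → V → V → V := fun a b x =>
    if h : ∃ r', G.Adj x r' ∧ T a b r' then h.choose else nb x
  have hch : ∀ a b x, G.Adj x (ch a b x) := by
    intro a b x
    by_cases h : ∃ r', G.Adj x r' ∧ T a b r'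
    · simp only [ch, dif_pos h]
      exact h.choose_spec.1
    · simp only [ch, dif_neg h]
      exact hnb x
  have hch2 : ∀ a b x, (∃ r', G.Adj x r' ∧ T a b r') → T a b (ch a b x) := by
    intro a b x h
    simp only [ch, dif_pos h]
    exact h.choose_spec.2
  let S : ℕ → List V × V := fun t => Nat.rec ([r0], r0)
    (fun _ p => (p.1 ++ [ch (A p.1) (B p.1) p.2], ch (A p.1) (B p.1) p.2)) t
  have hS0 : S 0 = ([r0], r0) := rfl
  have hS1 : ∀ t, S (t + 1) = ((S t).1 ++ [ch (A (S t).1) (B (S t).1) (S t).2],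
      ch (A (S t).1) (B (S t).1) (S t).2) := fun t => rfl
  let r : ℕ → V := fun t => (S t).2
  have hhist : ∀ t, (List.range (t + 1)).map r = (S t).1 := by
    intro t
    induction t with
    | zero => simp [r, hS0]
    | succ t ih =>
      rw [List.range_succ, List.map_append, ih, hS1 t]
      simp [r, hS1 t]
  have hstep : ∀ t, r (t + 1) = ch (A ((List.range (t + 1)).map r))
      (B ((List.range (t + 1)).map r)) (r t) := by
    intro t
    rw [hhist t]
  refine ⟨r, fun t => ?_, fun hA hB => ?_⟩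
  · rw [hstep t]
    exact hch _ _ _
  · have hinv : ∀ t, T (pos1 a0 A r t) (pos1 b0 B r t) (r t) := by
      intro t
      induction t with
      | zero => exact hr0
      | succ t ih =>
        have h1 := (hT _ _ _ ih).2.2 _ _ (hA t) (hB t)
        have h2 := hch2 _ _ _ h1.2.2
        rw [hstep t]
        exact h2
    intro t
    have h1 := hT _ _ _ (hinv t)
    have h2 := h1.2.2 _ _ (hA t) (hB t)
    exact ⟨⟨h1.1.symm, h2.1.symm⟩, ⟨h1.2.1.symm, h2.2.1.symm⟩⟩

theorem not_copsWin_of_safe (T : V → V → V → Prop) (hnb : ∀ v, ∃ w, G.Adj v w)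
    (h0 : ∀ a b, ∃ r, T a b r)
    (hT : ∀ a b r, T a b r → r ≠ a ∧ r ≠ b ∧ ∀ a' b', G.Adj a a' → G.Adj b b' →
      r ≠ a' ∧ r ≠ b' ∧ ∃ r', G.Adj r r' ∧ T a' b' r')
    (v0 : V) (k : ℕ) (hk : k ≤ 2) : ¬ CopsWin (activeStep G) k := by
  rintro ⟨c0, σ, h⟩
  have hpos : ∀ (i : Fin k) (r : ℕ → V) (t : ℕ),
      copPos c0 σ r t i = pos1 (c0 i) (fun l => σ l i) r t := by
    intro i r t
    cases t <;> rfl
  interval_cases k
  · obtain ⟨r, hr, -⟩ := robber_play G T hnb h0 hT v0 v0 (fun _ => v0) (fun _ => v0)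
    obtain ⟨-, t, i, -⟩ := h r hr
    exact i.elim0
  · obtain ⟨r, hr, hr2⟩ := robber_play G T hnb h0 hT (c0 0) (c0 0) (fun l => σ l 0)
      (fun l => σ l 0)
    obtain ⟨h1, t, i, h2⟩ := h r hr
    have h3 := hr2 (fun t => by
      have := h1 t 0
      rwa [hpos, hpos] at this) (fun t => by
      have := h1 t 0
      rwa [hpos, hpos] at this) t
    have hi : i = 0 := Subsingleton.elim _ _
    subst hi
    rw [hpos, hpos] at h2
    rcases h2 with h2 | h2
    · exact h3.1.1 h2
    · exact h3.1.2 h2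
  · obtain ⟨r, hr, hr2⟩ := robber_play G T hnb h0 hT (c0 0) (c0 1) (fun l => σ l 0)
      (fun l => σ l 1)
    obtain ⟨h1, t, i, h2⟩ := h r hr
    have h3 := hr2 (fun t => by
      have := h1 t 0
      rwa [hpos, hpos] at this) (fun t => by
      have := h1 t 1
      rwa [hpos, hpos] at this) t
    rw [hpos, hpos] at h2
    fin_cases i
    · rcases h2 with h2 | h2
      · exact h3.1.1 h2
      · exact h3.1.2 h2
    · rcases h2 with h2 | h2
      · exact h3.2.1 h2
      · exact h3.2.2 h2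

end Robber

/-! ## The graph -/

/-- neighbourhoods as bit masks -/
def nbMask : Fin 14 → ℕ :=
  ![12482, 12481, 13064, 13060, 15392, 15376, 3843, 3843, 3276, 3276, 1008, 1008, 63, 63]

/-- The graph. -/
def G : SimpleGraph (Fin 14) where
  Adj u v := (nbMask u).testBit v = true
  symm := ⟨by decide +kernel⟩
  loopless := ⟨by decide +kernel⟩

instance : DecidableRel G.Adj := fun u v =>
  inferInstanceAs (Decidable ((nbMask u).testBit v = true))

/-- the description of the edges given at the top of the file -/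
theorem G_edges : (∀ u v : Fin 14, G.Adj u v → G.Adj v u) ∧
    (∀ u v : Fin 14, u < v → (G.Adj u v ↔
      (v ≤ 5 ∧ u.val / 2 = v.val / 2) ∨
      (u ≤ 5 ∧ 6 ≤ v ∧ v ≤ 11 ∧ v.val / 2 = u.val / 2 + 3) ∨
      (u ≤ 5 ∧ 12 ≤ v) ∨
      (6 ≤ u ∧ v ≤ 11 ∧ u.val / 2 ≠ v.val / 2))) := by
  refine ⟨fun u v h => h.symm, ?_⟩
  decide +kernel

/-- the robber's safe vertices, as bit masks, when the cops are about to move -/
def safe : Fin 14 → Fin 14 → ℕ :=
  ![![0xf3c, 0xf3c, 0xc30, 0xc30, 0x30c, 0x30c, 0x3c, 0x3c, 0x230, 0x130, 0x80c, 0x40c, 0xf00, 0xf00],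
    ![0xf3c, 0xf3c, 0xc30, 0xc30, 0x30c, 0x30c, 0x3c, 0x3c, 0x230, 0x130, 0x80c, 0x40c, 0xf00, 0xf00],
    ![0xc30, 0xc30, 0xcf3, 0xcf3, 0xc3, 0xc3, 0xb0, 0x70, 0x33, 0x33, 0x803, 0x403, 0xcc0, 0xcc0],
    ![0xc30, 0xc30, 0xcf3, 0xcf3, 0xc3, 0xc3, 0xb0, 0x70, 0x33, 0x33, 0x803, 0x403, 0xcc0, 0xcc0],
    ![0x30c, 0x30c, 0xc3, 0xc3, 0x3cf, 0x3cf, 0x8c, 0x4c, 0x203, 0x103, 0xf, 0xf, 0x3c0, 0x3c0],
    ![0x30c, 0x30c, 0xc3, 0xc3, 0x3cf, 0x3cf, 0x8c, 0x4c, 0x203, 0x103, 0xf, 0xf, 0x3c0, 0x3c0],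
    ![0x3c, 0x3c, 0xb0, 0xb0, 0x8c, 0x8c, 0x30bc, 0x303c, 0x3030, 0x3030, 0x300c, 0x300c, 0x2080, 0x1080],
    ![0x3c, 0x3c, 0x70, 0x70, 0x4c, 0x4c, 0x303c, 0x307c, 0x3030, 0x3030, 0x300c, 0x300c, 0x2040, 0x1040],
    ![0x230, 0x230, 0x33, 0x33, 0x203, 0x203, 0x3030, 0x3030, 0x3233, 0x3033, 0x3003, 0x3003, 0x2200, 0x1200],
    ![0x130, 0x130, 0x33, 0x33, 0x103, 0x103, 0x3030, 0x3030, 0x3033, 0x3133, 0x3003, 0x3003, 0x2100, 0x1100],
    ![0x80c, 0x80c, 0x803, 0x803, 0xf, 0xf, 0x300c, 0x300c, 0x3003, 0x3003, 0x380f, 0x300f, 0x2800, 0x1800],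
    ![0x40c, 0x40c, 0x403, 0x403, 0xf, 0xf, 0x300c, 0x300c, 0x3003, 0x3003, 0x300f, 0x340f, 0x2400, 0x1400],
    ![0xf00, 0xf00, 0xcc0, 0xcc0, 0x3c0, 0x3c0, 0x2080, 0x2040, 0x2200, 0x2100, 0x2800, 0x2400, 0x2fc0, 0xfc0],
    ![0xf00, 0xf00, 0xcc0, 0xcc0, 0x3c0, 0x3c0, 0x1080, 0x1040, 0x1200, 0x1100, 0x1800, 0x1400, 0xfc0, 0x1fc0]]

theorem safe_nonempty : ∀ a b : Fin 14, ∃ r : Fin 14, (safe a b).testBit r = true := by
  decide +kernel

theorem safe_step : ∀ a b r : Fin 14, (safe a b).testBit r = true → r ≠ a ∧ r ≠ b ∧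
    ∀ a', G.Adj a a' → ∀ b', G.Adj b b' →
      r ≠ a' ∧ r ≠ b' ∧ ∃ r', G.Adj r r' ∧ (safe a' b').testBit r' = true := by
  decide +kernel

theorem G_nb : ∀ v, ∃ w, G.Adj v w := by
  decide +kernel

theorem two_active_cops_lose (k : ℕ) (hk : k ≤ 2) : ¬ CopsWin (activeStep G) k :=
  not_copsWin_of_safe G (fun a b r => (safe a b).testBit r = true) G_nb safe_nonempty
    (fun a b r h => ⟨(safe_step a b r h).1, (safe_step a b r h).2.1,
      fun a' b' ha hb => (safe_step a b r h).2.2 a' ha b' hb⟩) 0 k hk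

/-! ## Two passive cops win -/

/-- capture the robber if possible -/
def grab (a b r : Fin 14) : Fin 14 × Fin 14 :=
  if a = r ∨ G.Adj a r then (r, b) else if b = r ∨ G.Adj b r then (a, r) else (a, b)

/-- first move of the cops, who start at `z` and `a_1` -/
def m1 (r0 : Fin 14) : Fin 14 × Fin 14 :=
  if r0 = 13 then (12, 0) else if r0 = 7 then (0, 6) else grab 12 6 r0

/-- second move of the cops -/
def m2 (r0 r1 : Fin 14) : Fin 14 × Fin 14 := grab (m1 r0).1 (m1 r0).2 r1

/-- the strategy -/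
def strat : List (Fin 14) → Fin 2 → Fin 14
  | [] => ![12, 6]
  | [r0] => ![(m1 r0).1, (m1 r0).2]
  | r0 :: r1 :: _ => ![(m2 r0 r1).1, (m2 r0 r1).2]

theorem m1_legal : ∀ r0 : Fin 14, (12 = (m1 r0).1 ∨ G.Adj 12 (m1 r0).1) ∧
    (6 = (m1 r0).2 ∨ G.Adj 6 (m1 r0).2) := by
  decide +kernel

theorem m2_legal : ∀ r0 r1 : Fin 14,
    ((m1 r0).1 = (m2 r0 r1).1 ∨ G.Adj (m1 r0).1 (m2 r0 r1).1) ∧
    ((m1 r0).2 = (m2 r0 r1).2 ∨ G.Adj (m1 r0).2 (m2 r0 r1).2) := by
  decide +kernel

theorem m_wins : ∀ r0 r1 : Fin 14, (r0 = r1 ∨ G.Adj r0 r1) →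
    (m1 r0).1 = r0 ∨ (m1 r0).2 = r0 ∨ (m2 r0 r1).1 = r1 ∨ (m2 r0 r1).2 = r1 := by
  decide +kernel

theorem two_passive_cops_win : CopsWin (passiveStep G) 2 := by
  refine ⟨![12, 6], strat, fun r hr => ?_⟩
  have e0 : copPos ![12, 6] strat r 0 = ![12, 6] := rfl
  have e1 : copPos ![12, 6] strat r 1 = ![(m1 (r 0)).1, (m1 (r 0)).2] := rfl
  have e2 : ∀ t, copPos ![12, 6] strat r (t + 2) =
      ![(m2 (r 0) (r 1)).1, (m2 (r 0) (r 1)).2] := by
    intro t
    have h : (List.range (t + 2)).map r = r 0 :: r 1 :: ((List.range t).map fun i => r (i + 2)) := by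
      rw [List.range_succ_eq_map, List.range_succ_eq_map]
      simp [Function.comp_def]
    show strat ((List.range (t + 1 + 1)).map r) = _
    rw [h]
    rfl
  refine ⟨?_, ?_⟩
  · intro t i
    match t with
    | 0 =>
      rw [e0, e1]
      fin_cases i
      · exact (m1_legal (r 0)).1
      · exact (m1_legal (r 0)).2
    | 1 =>
      rw [e1, e2 0]
      fin_cases i
      · exact (m2_legal (r 0) (r 1)).1
      · exact (m2_legal (r 0) (r 1)).2
    | t + 2 =>
      rw [e2 t, e2 (t + 1)]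
      exact Or.inl rfl
  · rcases m_wins (r 0) (r 1) (hr 0) with h | h | h | h
    · exact ⟨0, 0, Or.inr (by rw [e1]; exact h)⟩
    · exact ⟨0, 1, Or.inr (by rw [e1]; exact h)⟩
    · exact ⟨1, 0, Or.inr (by rw [e2 0]; exact h)⟩
    · exact ⟨1, 1, Or.inr (by rw [e2 0]; exact h)⟩

/-! ## Some number of cops wins the fully active game -/

theorem many_active_cops_win : CopsWin (activeStep G) 14 := by
  choose nb hnb using G_nb
  refine ⟨fun i => i, fun l i => if l.length % 2 = 1 then nb i else i, fun r _ => ?_⟩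
  refine ⟨?_, 0, r 0, Or.inl rfl⟩
  have e : ∀ t i, copPos (fun i : Fin 14 => i)
      (fun (l : List (Fin 14)) i => if l.length % 2 = 1 then nb i else i) r t i =
      if t % 2 = 1 then nb i else i := by
    intro t i
    cases t with
    | zero => simp [copPos]
    | succ t => simp [copPos]
  intro t i
  rw [e, e]
  rcases Nat.mod_two_eq_zero_or_one t with h | h
  · rw [if_neg (by omega), if_pos (by omega)]
    exact hnb i
  · rw [if_pos h, if_neg (by omega)]
    exact (hnb i).symm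

theorem G_connected : G.Connected := by
  have hz : ∀ v : Fin 14, G.Reachable 12 v := by
    have h1 : ∀ v : Fin 14, v ≤ 5 → G.Adj 12 v := by decide +kernel
    have h2 : ∀ v : Fin 14, ∃ w : Fin 14, w ≤ 5 ∧ (G.Adj w v ∨ v ≤ 5) := by decide +kernel
    intro v
    obtain ⟨w, hw, h | h⟩ := h2 v
    · exact (h1 w hw).reachable.trans h.reachable
    · exact (h1 v h).reachable
  have : Nonempty (Fin 14) := ⟨0⟩
  exact ⟨fun u v => (hz u).symm.trans (hz v)⟩

theorem G_not_bipartite : ¬ G.IsBipartite := by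
  rintro ⟨c⟩
  have h1 : c 6 ≠ c 8 := c.valid (by decide +kernel)
  have h2 : c 8 ≠ c 10 := c.valid (by decide +kernel)
  have h3 : c 6 ≠ c 10 := c.valid (by decide +kernel)
  generalize c 6 = x at *
  generalize c 8 = y at *
  generalize c 10 = z at *
  revert x y z
  decide

/-- There is a connected non-bipartite graph (on 14 vertices) whose cop number is at most 2
and whose fully active cop number is at least 3. -/
theorem result : ∃ G : SimpleGraph (Fin 14), G.Connected ∧ ¬ G.IsBipartite ∧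
    copNumber G ≤ 2 ∧ 3 ≤ activeCopNumber G ∧ copNumber G < activeCopNumber G := by
  have h1 : copNumber G ≤ 2 := Nat.sInf_le two_passive_cops_win
  have h2 : 3 ≤ activeCopNumber G := by
    refine le_csInf ⟨14, many_active_cops_win⟩ ?_
    intro k hk
    by_contra hcon
    exact two_active_cops_lose k (by omega) hk
  exact ⟨G, G_connected, G_not_bipartite, h1, h2, by omega⟩

end Pool.Agent.Results.MP_bb83f1_co.ActiveExceedsPassive
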